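import Mathlib
import Pool.Agent.Results.MP_f5651a_an.BlowUpLimsup

/-!
# Real extension of a functional of degree `m` along finitely many directions
-/

set_option autoImplicit false

open Filter Topology Polynomial

namespace Pool.Agent.Y786.FQ

open Pool.Agent.Results.MP_f5651a_an.BlowUpLimsup

variable {E : Type*}

section algebra

variable [AddCommGroup E] [Module ℝ E]

lemma deg_translate {m : ℕ} {F : E → ℝ} (hF : IsFunctionalOfDegree m F) (z : E) :
    IsFunctionalOfDegree m (fun x => F (x + z)) := by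
  intro x h
  obtain ⟨a, ha⟩ := hF (x + z) h
  refine ⟨a, fun t => ?_⟩
  rw [← ha t]
  have e : x + (t : ℝ) • h + z = x + z + (t : ℝ) • h := by abel
  exact congrArg F e

lemma deg_translate' {m : ℕ} {F : E → ℝ} (hF : IsFunctionalOfDegree m F) (z : E) :
    IsFunctionalOfDegree m (fun x => F (z + x)) := by
  intro x h
  obtain ⟨a, ha⟩ := hF (z + x) h
  refine ⟨a, fun t => ?_⟩
  rw [← ha t]
  have e : z + (x + (t : ℝ) • h) = z + x + (t : ℝ) • h := by abel
  exact congrArg F e

lemma deg_sum {m : ℕ} {ι : Type*} (s : Finset ι) (c : ι → ℝ) (G : ι → E → ℝ)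
    (h : ∀ i, IsFunctionalOfDegree m (G i)) :
    IsFunctionalOfDegree m (fun x => ∑ i ∈ s, G i x * c i) := by
  intro x y
  choose a ha using fun i => h i x y
  refine ⟨fun k => ∑ i ∈ s, a i k * c i, fun t => ?_⟩
  simp only [ha, Finset.sum_mul]
  rw [Finset.sum_comm]
  refine Finset.sum_congr rfl fun k _ => Finset.sum_congr rfl fun i _ => ?_
  ring

lemma deg_mono {m n : ℕ} (hmn : m ≤ n) {F : E → ℝ} (hF : IsFunctionalOfDegree m F) :
    IsFunctionalOfDegree n F :=
  of_poly fun x h => ⟨P hF x h, (P_deg hF x h).trans hmn, fun t => P_eval hF x h t⟩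

/-- the nodes -/
def node {d m : ℕ} (b : Fin d → E) (j : Fin d → Fin (m + 1)) : E :=
  ∑ i, ((j i : ℕ) : ℝ) • b i

/-- the weights -/
noncomputable def wt {d m : ℕ} (v : Fin d → ℝ) (j : Fin d → Fin (m + 1)) : ℝ :=
  ∏ i, (lag m (j i)).eval (v i)

/-- the real extension -/
noncomputable def G {d : ℕ} (m : ℕ) (F : E → ℝ) (b : Fin d → E) (x : E) (v : Fin d → ℝ) : ℝ :=
  ∑ j : Fin d → Fin (m + 1), F (x + node b j) * wt v j

lemma sum_fin_succ {d : ℕ} {A M : Type*} [Fintype A] [AddCommMonoid M]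
    (φ : (Fin (d + 1) → A) → M) :
    ∑ j, φ j = ∑ a : A, ∑ j : Fin d → A, φ (Fin.cons a j) := by
  rw [← (Fin.consEquiv (fun _ => A)).sum_comp, Fintype.sum_prod_type]
  rfl

lemma eval_lag {m : ℕ} {F : E → ℝ} (hF : IsFunctionalOfDegree m F) (x h : E) (q : ℚ) :
    F (x + (q : ℝ) • h) =
      ∑ a : Fin (m + 1), F (x + ((a : ℕ) : ℝ) • h) * (lag m a).eval (q : ℝ) := by
  rw [P_eval hF x h q]
  conv_lhs => rw [lag_expand (P_deg hF x h)]
  rw [eval_finsetSum, Finset.sum_range]
  refine Finset.sum_congr rfl fun a _ => ?_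
  rw [eval_mul, eval_C, ← P_eval_nat]

lemma G_rat {m : ℕ} {F : E → ℝ} (hF : IsFunctionalOfDegree m F) :
    ∀ {d : ℕ} (b : Fin d → E) (x : E) (q : Fin d → ℚ),
      G m F b x (fun i => (q i : ℝ)) = F (x + ∑ i, (q i : ℝ) • b i) := by
  intro d
  induction d with
  | zero =>
    intro b x q
    simp [G, node, wt]
  | succ d ih =>
    intro b x q
    unfold G
    rw [sum_fin_succ]
    have h1 : ∀ a : Fin (m + 1), ∑ j : Fin d → Fin (m + 1),
        F (x + node b (Fin.cons a j)) * wt (fun i => (q i : ℝ)) (Fin.cons a j) =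
        F ((x + ∑ i : Fin d, (q i.succ : ℝ) • b i.succ) + ((a : ℕ) : ℝ) • b 0) *
          (lag m a).eval (q 0 : ℝ) := by
      intro a
      have h2 := ih (fun i => b i.succ) (x + ((a : ℕ) : ℝ) • b 0) (fun i => q i.succ)
      unfold G at h2
      have e : x + ∑ i : Fin d, (q i.succ : ℝ) • b i.succ + ((a : ℕ) : ℝ) • b 0 =
        x + ((a : ℕ) : ℝ) • b 0 + ∑ i : Fin d, (q i.succ : ℝ) • b i.succ := by abel
      rw [e, ← h2, Finset.sum_mul]
      refine Finset.sum_congr rfl fun j _ => ?_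
      unfold node wt
      rw [Fin.sum_univ_succ, Fin.prod_univ_succ]
      simp only [Fin.cons_zero, Fin.cons_succ]
      rw [← add_assoc]
      ring
    rw [Finset.sum_congr rfl fun a _ => h1 a, ← eval_lag hF, Fin.sum_univ_succ]
    congr 1
    abel

lemma wt_continuous {d m : ℕ} (j : Fin d → Fin (m + 1)) :
    Continuous (fun v : Fin d → ℝ => wt v j) := by
  unfold wt
  exact continuous_finsetProd _ fun i _ => (lag m (j i)).continuous.comp (continuous_apply i)

lemma G_continuous {d : ℕ} (m : ℕ) (F : E → ℝ) (b : Fin d → E) (x : E) :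
    Continuous (fun v => G m F b x v) := by
  unfold G
  exact continuous_finsetSum _ fun j _ => continuous_const.mul (wt_continuous j)

lemma dense_rat (d : ℕ) : DenseRange (fun q : Fin d → ℚ => fun i => (q i : ℝ)) :=
  DenseRange.piMap fun _ => Rat.denseRange_cast

lemma G_zero {m : ℕ} {F : E → ℝ} (hF : IsFunctionalOfDegree m F) {d : ℕ} (b : Fin d → E)
    (x : E) : G m F b x 0 = F x := by
  have := G_rat hF b x 0
  have e : (fun i => (((0 : Fin d → ℚ) i : ℚ) : ℝ)) = (0 : Fin d → ℝ) := by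
    funext i; simp
  rw [e] at this
  rw [this]
  simp

/-- shifting the base point by a rational combination -/
lemma G_shift {m : ℕ} {F : E → ℝ} (hF : IsFunctionalOfDegree m F) {d : ℕ} (b : Fin d → E)
    (x : E) (q : Fin d → ℚ) (w : Fin d → ℝ) :
    G m F b (x + ∑ i, (q i : ℝ) • b i) w = G m F b x ((fun i => (q i : ℝ)) + w) := by
  have h1 : Continuous (fun w => G m F b (x + ∑ i, (q i : ℝ) • b i) w) := G_continuous _ _ _ _
  have h2 : Continuous (fun w => G m F b x ((fun i => (q i : ℝ)) + w)) :=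
    (G_continuous _ _ _ _).comp (continuous_const.add continuous_id)
  refine congrFun ((dense_rat d).equalizer h1 h2 ?_) w
  funext r
  simp only [Function.comp]
  rw [G_rat hF]
  have h3 := G_rat hF b x (fun i => q i + r i)
  have e : ((fun i => (q i : ℝ)) + fun i => (r i : ℝ)) = fun i => ((q i + r i : ℚ) : ℝ) := by
    funext i; simp
  rw [e, h3]
  congr 1
  push_cast
  simp only [add_smul, Finset.sum_add_distrib, add_assoc]

/-- the polynomial along a line in the real extension -/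
noncomputable def L {d : ℕ} (M m : ℕ) (F : E → ℝ) (b : Fin d → E) (x h : E) (v w : Fin d → ℝ) :
    ℝ[X] :=
  ∑ j ∈ Finset.range (m + 1), C (G M F b (x + (j : ℝ) • h) (v + (j : ℝ) • w)) * lag m j

lemma lag_deg {m j : ℕ} (hj : j ∈ Finset.range (m + 1)) : (lag m j).natDegree ≤ m := by
  have hinj : Set.InjOn (fun i : ℕ => (i : ℝ)) (Finset.range (m + 1) : Set ℕ) :=
    Nat.cast_injective.injOn
  unfold lag
  rw [Lagrange.natDegree_basis hinj hj, Finset.card_range]
  omega

lemma L_deg {d : ℕ} (M m : ℕ) (F : E → ℝ) (b : Fin d → E) (x h : E) (v w : Fin d → ℝ) :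
    (L M m F b x h v w).natDegree ≤ m := by
  unfold L
  exact natDegree_sum_le_of_forall_le _ _ fun j hj => (natDegree_C_mul_le _ _).trans (lag_deg hj)

lemma L_eval {d : ℕ} {M m : ℕ} (hm : m ≤ M) {F : E → ℝ} (hF : IsFunctionalOfDegree m F)
    (b : Fin d → E) (x h : E) (v w : Fin d → ℝ) (s : ℚ) :
    (L M m F b x h v w).eval (s : ℝ) = G M F b (x + (s : ℝ) • h) (v + (s : ℝ) • w) := by
  have hFM := deg_mono hm hF
  have hc : ∀ c : ℝ, Continuous (fun p : (Fin d → ℝ) × (Fin d → ℝ) => p.1 + c • p.2) := by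
    intro c
    fun_prop
  have h1 : Continuous (fun p : (Fin d → ℝ) × (Fin d → ℝ) =>
      (L M m F b x h p.1 p.2).eval (s : ℝ)) := by
    unfold L
    simp only [eval_finsetSum, eval_mul, eval_C]
    refine continuous_finsetSum _ fun j _ => Continuous.mul ?_ continuous_const
    exact (G_continuous M F b _).comp (hc _)
  have h2 : Continuous (fun p : (Fin d → ℝ) × (Fin d → ℝ) =>
      G M F b (x + (s : ℝ) • h) (p.1 + (s : ℝ) • p.2)) :=
    (G_continuous M F b _).comp (hc _)
  have hd := (dense_rat d).prodMap (dense_rat d)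
  refine congrFun (hd.equalizer h1 h2 ?_) (v, w)
  funext ⟨q, r⟩
  simp only [Function.comp, Prod.map]
  have key : ∀ t : ℚ, G M F b (x + (t : ℝ) • h) ((fun i => (q i : ℝ)) + (t : ℝ) • fun i => (r i : ℝ))
      = F ((x + ∑ i, (q i : ℝ) • b i) + (t : ℝ) • (h + ∑ i, (r i : ℝ) • b i)) := by
    intro t
    have h3 := G_rat hFM b (x + (t : ℝ) • h) (fun i => q i + t * r i)
    have e : ((fun i => (q i : ℝ)) + (t : ℝ) • fun i => (r i : ℝ)) =
        fun i => ((q i + t * r i : ℚ) : ℝ) := by
      funext i; simp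
    rw [e, h3]
    congr 1
    push_cast
    simp only [add_smul, Finset.sum_add_distrib, mul_smul, smul_add, Finset.smul_sum]
    abel
  rw [key s, P_eval hF]
  conv_rhs => rw [lag_expand (P_deg hF _ _)]
  unfold L
  rw [eval_finsetSum, eval_finsetSum]
  refine Finset.sum_congr rfl fun j _ => ?_
  rw [eval_mul, eval_mul, eval_C, eval_C, ← P_eval_nat]
  have := key j
  push_cast at this
  rw [this]

lemma L_eval_real {d : ℕ} {M m : ℕ} (hm : m ≤ M) {F : E → ℝ} (hF : IsFunctionalOfDegree m F)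
    (b : Fin d → E) (x : E) (v w : Fin d → ℝ) (s : ℝ) :
    (L M m F b x 0 v w).eval s = G M F b x (v + s • w) := by
  have h1 : Continuous (fun s : ℝ => (L M m F b x 0 v w).eval s) := Polynomial.continuous _
  have h2 : Continuous (fun s : ℝ => G M F b x (v + s • w)) :=
    (G_continuous M F b _).comp (continuous_const.add (continuous_id.smul continuous_const))
  refine congrFun (Rat.denseRange_cast.equalizer h1 h2 ?_) s
  funext q
  simp only [Function.comp]
  rw [L_eval hm hF, smul_zero, add_zero]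

lemma G_deg {d : ℕ} {M m : ℕ} {F : E → ℝ} (hF : IsFunctionalOfDegree m F)
    (b : Fin d → E) (v : Fin d → ℝ) : IsFunctionalOfDegree m (fun x => G M F b x v) := by
  unfold G
  exact deg_sum _ _ _ fun j => deg_translate hF _

/-- the coefficient functional -/
noncomputable def co {d : ℕ} (M m : ℕ) (F : E → ℝ) (b : Fin d → E) (κ : Fin d → ℝ) (k : ℕ)
    (x : E) : ℝ := (L M m F b x 0 0 κ).coeff k

lemma co_deg {d : ℕ} {M m : ℕ} {F : E → ℝ} (hF : IsFunctionalOfDegree m F)
    (b : Fin d → E) (κ : Fin d → ℝ) (k : ℕ) : IsFunctionalOfDegree m (co M m F b κ k) := by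
  have : co M m F b κ k = fun x => ∑ j ∈ Finset.range (m + 1),
      G M F b x ((j : ℝ) • κ) * (lag m j).coeff k := by
    funext x
    unfold co L
    rw [finsetSum_coeff]
    refine Finset.sum_congr rfl fun j _ => ?_
    rw [coeff_C_mul, smul_zero, add_zero, zero_add]
  rw [this]
  exact deg_sum _ _ _ fun j => G_deg hF b _

lemma co_eq_zero {d : ℕ} {M m : ℕ} (F : E → ℝ) (b : Fin d → E) (κ : Fin d → ℝ) {k : ℕ}
    (hk : m < k) (x : E) : co M m F b κ k x = 0 :=
  coeff_eq_zero_of_natDegree_lt (lt_of_le_of_lt (L_deg _ _ _ _ _ _ _ _) hk)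

lemma sum_co {d : ℕ} {M m : ℕ} (hm : m ≤ M) {F : E → ℝ} (hF : IsFunctionalOfDegree m F)
    (b : Fin d → E) (κ : Fin d → ℝ) (N : ℕ) (hN : ∀ k, N < k → ∀ x, co M m F b κ k x = 0)
    (x : E) (t : ℝ) :
    G M F b x (t • κ) = ∑ k ∈ Finset.range (N + 1), co M m F b κ k x * t ^ k := by
  have h1 := L_eval_real hm hF b x 0 κ t
  rw [zero_add] at h1
  rw [← h1]
  have hd : (L M m F b x 0 0 κ).natDegree ≤ N := by
    rw [natDegree_le_iff_coeff_eq_zero]
    intro k hk
    exact hN k hk x
  rw [eval_eq_sum_range' (Nat.lt_succ_of_le hd)]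
  rfl

/-- The top coefficient functional drops the degree. -/
lemma co_drop {d : ℕ} {M m : ℕ} (hm : m + 1 ≤ M) {F : E → ℝ}
    (hF : IsFunctionalOfDegree (m + 1) F)
    (b : Fin d → E) (κ : Fin d → ℝ) (N : ℕ) (hN1 : 1 ≤ N)
    (hN : ∀ k, N < k → ∀ x, co M (m + 1) F b κ k x = 0) :
    IsFunctionalOfDegree m (co M (m + 1) F b κ N) := by
  refine of_poly fun x h => ?_
  choose α hα1 hα2 using fun k => exists_poly (co_deg (M := M) hF b κ k) x h
  refine ⟨α N, ?_, hα2 N⟩
  have h1 : L M (m + 1) F b x h 0 κ = ∑ k ∈ Finset.range (N + 1), α k * X ^ k := by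
    apply poly_ext_rat
    intro s
    rw [L_eval hm hF, zero_add, sum_co hm hF b κ N hN, eval_finsetSum]
    refine Finset.sum_congr rfl fun k _ => ?_
    rw [eval_mul, eval_pow, eval_X, hα2 k s]
  have h2 : (L M (m + 1) F b x h 0 κ).coeff (m + 1 + N) = 0 :=
    coeff_eq_zero_of_natDegree_lt (lt_of_le_of_lt (L_deg _ _ _ _ _ _ _ _) (by omega))
  rw [h1, finsetSum_coeff, Finset.sum_range_succ, Finset.sum_eq_zero, zero_add] at h2
  · rw [coeff_mul_X_pow] at h2
    rcases Nat.lt_or_ge m (α N).natDegree with hlt | hge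
    · have he : (α N).natDegree = m + 1 := le_antisymm (hα1 N) hlt
      have : (α N).leadingCoeff = 0 := by rw [leadingCoeff, he, h2]
      rw [leadingCoeff_eq_zero] at this
      rw [this]; simp
    · exact hge
  · intro k hk
    rw [coeff_mul_X_pow']
    split_ifs with h3
    · apply coeff_eq_zero_of_natDegree_lt
      refine lt_of_le_of_lt (hα1 k) ?_
      have := Finset.mem_range.mp hk
      omega
    · rfl

end algebra

end Pool.Agent.Y786.FQ
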