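import Mathlib
import Pool.Agent.Y786.FQ.Ext

/-!
# Blow-up sequences for functionals of degree `m` in finite dimension
-/

set_option autoImplicit false

open Filter Topology Polynomial

namespace Pool.Agent.Y786.FQ

open Pool.Agent.Results.MP_f5651a_an.BlowUpLimsup

variable {E : Type*} [NormedAddCommGroup E] [NormedSpace ℝ E]

/-- `τ` bounds all functionals of degree `M` along the sequence `y`, up to constants -/
def Tame (M : ℕ) (y : ℕ → E) (τ : ℕ → ℝ) : Prop :=
  ∀ H : E → ℝ, IsFunctionalOfDegree M H → ∃ C : ℝ, 0 ≤ C ∧ ∀ n, |H (y n)| ≤ C * τ n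

lemma tame_zero (M : ℕ) : Tame M (fun _ : ℕ => (0 : E)) (fun _ => 1) := by
  intro H _
  exact ⟨|H 0|, abs_nonneg _, fun n => by simp⟩

lemma tame_step {M d : ℕ} {y : ℕ → E} {τ : ℕ → ℝ} (hτ : ∀ n, 1 ≤ τ n) (h : Tame M y τ)
    (b : Fin d → E) (q : ℕ → Fin d → ℚ) :
    Tame M (fun n => y n + ∑ i, (q n i : ℝ) • b i)
      (fun n => τ n * (1 + ∑ j : Fin d → Fin (M + 1), |wt (fun i => (q n i : ℝ)) j|)) := by
  intro H hH
  choose C hC0 hC using fun j : Fin d → Fin (M + 1) => h _ (deg_translate hH (node b j))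
  refine ⟨∑ j, C j, Finset.sum_nonneg fun j _ => hC0 j, fun n => ?_⟩
  beta_reduce
  rw [← G_rat hH]
  unfold G
  refine (Finset.abs_sum_le_sum_abs _ _).trans ?_
  rw [Finset.sum_mul]
  refine Finset.sum_le_sum fun j _ => ?_
  rw [abs_mul]
  have h1 := hC j n
  have h0 : (0 : ℝ) ≤ τ n := zero_le_one.trans (hτ n)
  have h2 : |wt (fun i => (q n i : ℝ)) j| ≤
      1 + ∑ j : Fin d → Fin (M + 1), |wt (fun i => (q n i : ℝ)) j| := by
    have := Finset.single_le_sum (f := fun j => |wt (fun i => (q n i : ℝ)) j|)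
      (fun i _ => abs_nonneg _) (Finset.mem_univ j)
    linarith
  calc |H (y n + node b j)| * |wt (fun i => (q n i : ℝ)) j|
      ≤ (C j * τ n) * (1 + ∑ j : Fin d → Fin (M + 1), |wt (fun i => (q n i : ℝ)) j|) :=
        mul_le_mul h1 h2 (abs_nonneg _) (mul_nonneg (hC0 j) h0)
    _ = _ := by ring

/-- lower bound of a nonzero polynomial near `0` -/
lemma poly_lower {R : ℝ[X]} (hR : R ≠ 0) {T : ℕ} (hT : R.natDegree ≤ T) :
    ∃ c : ℝ, 0 < c ∧ ∀ᶠ n : ℕ in atTop, c * (1 / ((n : ℝ) + 1)) ^ T ≤
      |R.eval (1 / ((n : ℝ) + 1))| := by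
  obtain ⟨R', hR', hnd⟩ := exists_eq_pow_rootMultiplicity_mul_and_not_dvd R hR 0
  set j := rootMultiplicity 0 R with hj
  have h0 : R'.eval 0 ≠ 0 := by
    intro h
    exact hnd (dvd_iff_isRoot.mpr h)
  have hR'0 : R' ≠ 0 := by
    rintro rfl
    simp at h0
  have hjT : j ≤ T := by
    refine le_trans ?_ hT
    rw [hR', natDegree_mul (pow_ne_zero _ (X_sub_C_ne_zero 0)) hR'0, natDegree_pow,
      natDegree_X_sub_C]
    omega
  have hlim : Tendsto (fun n : ℕ => |R'.eval (1 / ((n : ℝ) + 1))|) atTop (𝓝 |R'.eval 0|) :=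
    ((R'.continuous.tendsto 0).comp tendsto_one_div_add_atTop_nhds_zero_nat).abs
  have hpos : 0 < |R'.eval 0| := abs_pos.mpr h0
  refine ⟨|R'.eval 0| / 2, by positivity, ?_⟩
  filter_upwards [hlim.eventually (lt_mem_nhds (half_lt_self hpos))] with n hn
  have hs0 : (0 : ℝ) < 1 / ((n : ℝ) + 1) := by positivity
  have hs1 : 1 / ((n : ℝ) + 1) ≤ 1 := by
    rw [div_le_one (by positivity)]
    have : (0 : ℝ) ≤ n := Nat.cast_nonneg n
    linarith
  rw [hR', eval_mul, eval_pow, eval_sub, eval_X, eval_C, sub_zero, abs_mul, abs_of_pos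
    (pow_pos hs0 j), mul_comm]
  exact mul_le_mul (pow_le_pow_of_le_one hs0.le hs1 hjT) hn.le (by positivity) (by positivity)

/-- A continuous functional equals its real extension along a basis. -/
lemma cont_eq {M : ℕ} {F : E → ℝ} (hF : IsFunctionalOfDegree M F) (hc : Continuous F)
    {d : ℕ} (e : Fin d → E) (x : E) (v : Fin d → ℝ) :
    F (x + ∑ i, v i • e i) = G M F e x v := by
  have h1 : Continuous (fun v : Fin d → ℝ => F (x + ∑ i, v i • e i)) :=
    hc.comp (continuous_const.add (continuous_finsetSum _ fun i _ =>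
      (continuous_apply i).smul continuous_const))
  refine congrFun ((dense_rat d).equalizer h1 (G_continuous M F e x) ?_) v
  funext q
  simp only [Function.comp]
  rw [G_rat hF]

/-- monomial coefficients of the extension -/
lemma G_monomial {M : ℕ} (F : E → ℝ) {d : ℕ} (e : Fin d → E) (x : E) :
    ∃ a : (Fin d → Fin (M + 1)) → ℝ, ∀ v : Fin d → ℝ,
      G M F e x v = ∑ l, a l * ∏ i, v i ^ ((l i : ℕ)) := by
  refine ⟨fun l => ∑ j : Fin d → Fin (M + 1), F (x + node e j) *
    ∏ i, (lag M (j i)).coeff (l i), fun v => ?_⟩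
  unfold G wt
  have h1 : ∀ (j : Fin d → Fin (M + 1)), ∏ i, (lag M (j i)).eval (v i) =
      ∑ l : Fin d → Fin (M + 1), ∏ i, ((lag M (j i)).coeff (l i) * v i ^ (l i : ℕ)) := by
    intro j
    have h2 : ∀ i, (lag M (j i)).eval (v i) =
        ∑ l : Fin (M + 1), (lag M (j i)).coeff l * v i ^ (l : ℕ) := by
      intro i
      rw [eval_eq_sum_range' (Nat.lt_succ_of_le (lag_deg (m := M) (j := (j i))
        (Finset.mem_range.mpr (j i).2))), Finset.sum_range]
    rw [Finset.prod_congr rfl fun i _ => h2 i, Finset.prod_univ_sum, Fintype.piFinset_univ]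
  rw [Finset.sum_congr rfl fun j _ => by rw [h1 j]]
  simp only [Finset.mul_sum, Finset.sum_mul]
  rw [Finset.sum_comm]
  refine Finset.sum_congr rfl fun l _ => Finset.sum_congr rfl fun j _ => ?_
  rw [Finset.prod_mul_distrib]
  ring

variable [FiniteDimensional ℝ E]

/-- base case -/
lemma base_case {M : ℕ} {F : E → ℝ} (hF : IsFunctionalOfDegree M F)
    (hc : Continuous F) (hne : ∃ x, F x ≠ 0) :
    ∃ (y : ℕ → E) (τ ρ : ℕ → ℝ), Tendsto y atTop (𝓝 0) ∧ (∀ n, 1 ≤ τ n) ∧ (∀ n, 0 < ρ n) ∧
      Tame M y τ ∧ (∀ x, ∃ c : ℝ, 0 < c ∧ ∀ᶠ n in atTop, c * ρ n ≤ |F (x + y n)|) := by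
  set k := Module.finrank ℝ E with hk
  let e := Module.finBasis ℝ E
  let q : ℕ → Fin k → ℚ := fun n i => (1 / ((n : ℚ) + 1)) ^ ((M + 1) ^ (i : ℕ))
  have hq : ∀ n i, ((q n i : ℚ) : ℝ) = (1 / ((n : ℝ) + 1)) ^ ((M + 1) ^ (i : ℕ)) := by
    intro n i
    simp [q]
  refine ⟨fun n => 0 + ∑ i, (q n i : ℝ) • e i,
    fun n => 1 * (1 + ∑ j : Fin k → Fin (M + 1), |wt (fun i => (q n i : ℝ)) j|),
    fun n => (1 / ((n : ℝ) + 1)) ^ ((M + 1) ^ k), ?_, ?_, ?_, ?_, ?_⟩
  · have : Tendsto (fun n => 0 + ∑ i, (q n i : ℝ) • e i) atTop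
        (𝓝 (0 + ∑ i, (0 : ℝ) • e i)) := by
      refine tendsto_const_nhds.add (tendsto_finsetSum _ fun i _ => ?_)
      refine Tendsto.smul ?_ tendsto_const_nhds
      have h1 : Tendsto (fun n : ℕ => (1 / ((n : ℝ) + 1)) ^ ((M + 1) ^ (i : ℕ))) atTop
          (𝓝 (0 ^ ((M + 1) ^ (i : ℕ)))) :=
        (tendsto_one_div_add_atTop_nhds_zero_nat (𝕜 := ℝ)).pow _
      rw [zero_pow (by positivity)] at h1
      exact h1.congr fun n => (hq n i).symm
    simpa using this
  · intro n
    have : 0 ≤ ∑ j : Fin k → Fin (M + 1), |wt (fun i => (q n i : ℝ)) j| :=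
      Finset.sum_nonneg fun _ _ => abs_nonneg _
    linarith
  · intro n
    positivity
  · exact tame_step (fun _ => le_refl 1) (tame_zero M) (fun i => e i) q
  · intro x
    obtain ⟨a, ha⟩ := G_monomial (M := M) F (fun i => e i) x
    let R : ℝ[X] := ∑ l : Fin k → Fin (M + 1), C (a l) * X ^ ((finFunctionFinEquiv l : ℕ))
    have hRe : ∀ n : ℕ, F (x + (0 + ∑ i, (q n i : ℝ) • e i)) =
        R.eval (1 / ((n : ℝ) + 1)) := by
      intro n
      rw [zero_add, cont_eq hF hc (fun i => e i) x, ha]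
      simp only [R, eval_finsetSum, eval_mul, eval_C, eval_pow, eval_X]
      refine Finset.sum_congr rfl fun l _ => ?_
      congr 1
      rw [finFunctionFinEquiv_apply, ← Finset.prod_pow_eq_pow_sum]
      refine Finset.prod_congr rfl fun i _ => ?_
      rw [hq, ← pow_mul, mul_comm]
    have hR0 : R ≠ 0 := by
      intro h0
      have ha0 : ∀ l, a l = 0 := by
        intro l0
        have h1 : R.coeff (finFunctionFinEquiv l0 : ℕ) = a l0 := by
          simp only [R, finsetSum_coeff, coeff_C_mul, coeff_X_pow]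
          rw [Finset.sum_eq_single l0]
          · rw [if_pos rfl, mul_one]
          · intro l _ hl
            rw [if_neg, mul_zero]
            intro h2
            apply hl
            exact (finFunctionFinEquiv.injective (Fin.ext h2)).symm
          · intro h; exact absurd (Finset.mem_univ _) h
        rw [← h1, h0, coeff_zero]
      obtain ⟨z, hz⟩ := hne
      apply hz
      have h3 := cont_eq hF hc (fun i => e i) x (fun i => e.repr (z - x) i)
      rw [ha] at h3
      simp only [ha0, zero_mul, Finset.sum_const_zero] at h3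
      rw [e.sum_repr] at h3
      simpa using h3
    have hRd : R.natDegree ≤ (M + 1) ^ k := by
      refine natDegree_sum_le_of_forall_le _ _ fun l _ => ?_
      refine (natDegree_C_mul_X_pow_le _ _).trans ?_
      exact (finFunctionFinEquiv l).2.le
    obtain ⟨c, hc0, hcc⟩ := poly_lower hR0 hRd
    refine ⟨c, hc0, ?_⟩
    filter_upwards [hcc] with n hn
    rw [hRe n]
    exact hn

/-- A discontinuous functional has a direction of unboundedness. -/
lemma exists_direction {M m : ℕ} (hm : m ≤ M) {F : E → ℝ} (hF : IsFunctionalOfDegree m F)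
    (hd : ¬ Continuous F) :
    ∃ (d : ℕ) (b : Fin d → E) (κ : Fin d → ℝ), ∑ i, κ i • b i = 0 ∧
      ∃ k, 1 ≤ k ∧ ∃ x, co M m F b κ k x ≠ 0 := by
  by_contra hcon
  push Not at hcon
  apply hd
  have hFM := deg_mono hm hF
  let e := Module.finBasis ℝ E
  have hβ : Continuous (fun z : E => (fun i => e.repr z i)) := by
    refine continuous_pi fun i => ?_
    exact (e.coord i).continuous_of_finiteDimensional
  have key : ∀ z, F z = G M F (fun i => e i) 0 (fun i => e.repr z i) := by
    intro z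
    set β : Fin (Module.finrank ℝ E) → ℝ := fun i => e.repr z i with hβd
    let b : Fin (Module.finrank ℝ E + 1) → E := Fin.cons z (fun i => e i)
    let κ : Fin (Module.finrank ℝ E + 1) → ℝ := Fin.cons 1 (fun i => - β i)
    have hκ : ∑ i, κ i • b i = 0 := by
      rw [Fin.sum_univ_succ]
      simp only [κ, b, Fin.cons_zero, Fin.cons_succ, one_smul, neg_smul, Finset.sum_neg_distrib]
      rw [e.sum_repr]
      abel
    have h1 := hcon _ b κ hκ
    -- constancy along `κ`
    have h2 : ∀ x, G M F b x κ = F x := by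
      intro x
      have h3 := sum_co hm hF b κ 0 (fun k hk x => h1 k hk x) x 1
      have h4 := sum_co hm hF b κ 0 (fun k hk x => h1 k hk x) x 0
      rw [one_smul] at h3
      rw [zero_smul, G_zero hFM] at h4
      rw [h3, h4]
      simp
    have h5 : ∀ v : Fin (Module.finrank ℝ E + 1) → ℝ, G M F b 0 (v + κ) = G M F b 0 v := by
      intro v
      have c1 : Continuous (fun v => G M F b 0 (v + κ)) :=
        (G_continuous M F b 0).comp (continuous_id.add continuous_const)
      refine congrFun ((dense_rat _).equalizer c1 (G_continuous M F b 0) ?_) v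
      funext q
      simp only [Function.comp]
      rw [← G_shift hFM, h2, G_rat hFM]
    have h6 : ∀ v : Fin (Module.finrank ℝ E) → ℝ, G M F b 0 (Fin.cons 0 v) =
        G M F (fun i => e i) 0 v := by
      intro v
      have c1 : Continuous (fun v : Fin (Module.finrank ℝ E) → ℝ =>
          G M F b 0 (Fin.cons 0 v)) := by
        refine (G_continuous M F b 0).comp ?_
        refine continuous_pi fun i => ?_
        refine Fin.cases ?_ (fun i => ?_) i
        · simp only [Fin.cons_zero]; exact continuous_const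
        · simp only [Fin.cons_succ]; exact continuous_apply i
      refine congrFun ((dense_rat _).equalizer c1 (G_continuous M F (fun i => e i) 0) ?_) v
      funext q
      simp only [Function.comp]
      rw [G_rat hFM]
      have h7 := G_rat hFM b 0 (Fin.cons 0 q)
      have e1 : (fun i => ((Fin.cons 0 q : Fin (Module.finrank ℝ E + 1) → ℚ) i : ℝ)) =
          Fin.cons 0 (fun i => (q i : ℝ)) := by
        funext i
        refine Fin.cases ?_ (fun i => ?_) i
        · simp
        · simp
      rw [e1] at h7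
      rw [h7, Fin.sum_univ_succ]
      simp [b]
    rw [← h6, ← h5]
    have h8 := G_rat hFM b 0 (Fin.cons 1 0)
    have e2 : (fun i => ((Fin.cons 1 0 : Fin (Module.finrank ℝ E + 1) → ℚ) i : ℝ)) =
        Fin.cons 0 β + κ := by
      funext i
      refine Fin.cases ?_ (fun i => ?_) i
      · simp [κ]
      · simp [κ]
    rw [e2] at h8
    rw [h8, Fin.sum_univ_succ]
    simp [b]
  have : F = fun z => G M F (fun i => e i) 0 (fun i => e.repr z i) := funext key
  rw [this]
  exact (G_continuous M F (fun i => e i) 0).comp hβ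

end Pool.Agent.Y786.FQ
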