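import Mathlib
import Pool.Agent.Y786.FQ.Seq

/-!
# Blow-up sequences for functionals of degree `m` in finite dimension: the induction
-/

set_option autoImplicit false

open Filter Topology Polynomial

namespace Pool.Agent.Y786.FQ

open Pool.Agent.Results.MP_f5651a_an.BlowUpLimsup

variable {E : Type*} [NormedAddCommGroup E] [NormedSpace ℝ E]

/-- the analytic step -/
lemma step {M m : ℕ} (hm : m + 1 ≤ M) {F : E → ℝ} (hF : IsFunctionalOfDegree (m + 1) F)
    {d : ℕ} (b : Fin d → E) (κ : Fin d → ℝ) (hκ : ∑ i, κ i • b i = 0)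
    (N : ℕ) (hN : ∀ k, N + 1 < k → ∀ x, co M (m + 1) F b κ k x = 0)
    (y : ℕ → E) (τ ρ : ℕ → ℝ) (hy : Tendsto y atTop (𝓝 0)) (hτ : ∀ n, 1 ≤ τ n)
    (hρ : ∀ n, 0 < ρ n) (hT : Tame M y τ)
    (hlow : ∀ x, ∃ c : ℝ, 0 < c ∧ ∀ᶠ n in atTop,
      c * ρ n ≤ |co M (m + 1) F b κ (N + 1) (x + y n)|) :
    ∃ (y' : ℕ → E) (τ' : ℕ → ℝ), Tendsto y' atTop (𝓝 0) ∧ (∀ n, 1 ≤ τ' n) ∧
      Tame M y' τ' ∧
      (∀ x, ∃ c : ℝ, 0 < c ∧ ∀ᶠ n : ℕ in atTop, c * ((n : ℝ) + 1) ≤ |F (x + y' n)|) := by
  have hFM := deg_mono hm hF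
  -- the scales
  let t : ℕ → ℝ := fun n => 1 + ((n : ℝ) + 1) * τ n / ρ n
  have ht1 : ∀ n, 1 ≤ t n := by
    intro n
    have h1 : 0 ≤ ((n : ℝ) + 1) * τ n / ρ n := by
      have := hτ n
      have := hρ n
      positivity
    simp only [t]
    linarith
  have htρ : ∀ n : ℕ, ((n : ℝ) + 1) * τ n ≤ t n * ρ n := by
    intro n
    have h1 : ((n : ℝ) + 1) * τ n / ρ n * ρ n = ((n : ℝ) + 1) * τ n :=
      div_mul_cancel₀ _ (hρ n).ne'
    have h2 : t n * ρ n = ρ n + ((n : ℝ) + 1) * τ n / ρ n * ρ n := by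
      simp only [t]
      ring
    rw [h2, h1]
    linarith [hρ n]
  -- the rational approximations
  have hr : ∀ n : ℕ, ∃ r : Fin d → ℚ, ‖∑ i, (r i : ℝ) • b i‖ < 1 / ((n : ℝ) + 1) ∧
      ∀ j : Fin d → Fin (M + 1), τ n * |wt (fun i => (r i : ℝ)) j - wt (t n • κ) j| < 1 := by
    intro n
    let U : Set (Fin d → ℝ) := {v | ‖∑ i, v i • b i‖ < 1 / ((n : ℝ) + 1)} ∩
      ⋂ j : Fin d → Fin (M + 1), {v | τ n * |wt v j - wt (t n • κ) j| < 1}
    have hU : IsOpen U := by
      refine IsOpen.inter ?_ (isOpen_iInter_of_finite fun j => ?_)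
      · refine isOpen_lt ?_ continuous_const
        exact (continuous_finsetSum _ fun i _ =>
          (continuous_apply i).smul continuous_const).norm
      · refine isOpen_lt ?_ continuous_const
        exact continuous_const.mul ((wt_continuous j).sub continuous_const).abs
    have hmem : t n • κ ∈ U := by
      refine ⟨?_, ?_⟩
      · have e0 : ∑ i, (t n • κ) i • b i = 0 := by
          have : ∑ i, (t n • κ) i • b i = t n • ∑ i, κ i • b i := by
            rw [Finset.smul_sum]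
            refine Finset.sum_congr rfl fun i _ => ?_
            rw [Pi.smul_apply, smul_eq_mul, mul_smul]
          rw [this, hκ, smul_zero]
        show ‖∑ i, (t n • κ) i • b i‖ < 1 / ((n : ℝ) + 1)
        rw [e0, norm_zero]
        positivity
      · rw [Set.mem_iInter]
        intro j
        show τ n * |wt (t n • κ) j - wt (t n • κ) j| < 1
        simp
    obtain ⟨r, hr⟩ := (dense_rat d).exists_mem_open hU ⟨_, hmem⟩
    refine ⟨r, hr.1, fun j => ?_⟩
    have := hr.2
    rw [Set.mem_iInter] at this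
    exact this j
  choose r hr1 hr2 using hr
  refine ⟨fun n => y n + ∑ i, (r n i : ℝ) • b i,
    fun n => τ n * (1 + ∑ j : Fin d → Fin (M + 1), |wt (fun i => (r n i : ℝ)) j|),
    ?_, ?_, tame_step hτ hT b r, ?_⟩
  · have h1 : Tendsto (fun n => ∑ i, (r n i : ℝ) • b i) atTop (𝓝 0) :=
      squeeze_zero_norm (fun n => (hr1 n).le) tendsto_one_div_add_atTop_nhds_zero_nat
    simpa using hy.add h1
  · intro n
    have h1 : 0 ≤ ∑ j : Fin d → Fin (M + 1), |wt (fun i => (r n i : ℝ)) j| :=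
      Finset.sum_nonneg fun _ _ => abs_nonneg _
    have h2 := hτ n
    nlinarith
  · intro x
    -- error term
    choose C hC0 hC using fun j : Fin d → Fin (M + 1) =>
      hT _ (deg_translate' (deg_translate hFM (node b j)) x)
    -- lower coefficients
    choose D hD0 hD using fun k : ℕ =>
      hT _ (deg_translate' (deg_mono hm (co_deg (M := M) hF b κ k)) x)
    obtain ⟨c, hc0, hc⟩ := hlow x
    set A := ∑ k ∈ Finset.range (N + 1), D k with hA
    set B := ∑ j, C j with hB
    have hA0 : 0 ≤ A := Finset.sum_nonneg fun k _ => hD0 k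
    refine ⟨c / 2, by positivity, ?_⟩
    have hbig : ∀ᶠ n : ℕ in atTop, 2 * (A + B) / c ≤ (n : ℝ) + 1 := by
      filter_upwards [eventually_ge_atTop (⌈2 * (A + B) / c⌉₊)] with n hn
      have h1 := Nat.le_ceil (2 * (A + B) / c)
      have h2 : ((⌈2 * (A + B) / c⌉₊ : ℕ) : ℝ) ≤ n := by exact_mod_cast hn
      linarith
    filter_upwards [hc, hbig] with n hn hbn
    have hτn := hτ n
    have htn := ht1 n
    rw [div_le_iff₀ hc0] at hbn
    -- comparison with the real extension
    have e1 : |F (x + (y n + ∑ i, (r n i : ℝ) • b i)) - G M F b (x + y n) (t n • κ)| ≤ B := by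
      rw [← add_assoc, ← G_rat hFM b (x + y n) (r n)]
      unfold G
      rw [← Finset.sum_sub_distrib]
      refine (Finset.abs_sum_le_sum_abs _ _).trans (Finset.sum_le_sum fun j _ => ?_)
      rw [← mul_sub, abs_mul]
      have h1 := hC j n
      beta_reduce at h1
      calc |F (x + y n + node b j)| * |wt (fun i => (r n i : ℝ)) j - wt (t n • κ) j|
          ≤ (C j * τ n) * |wt (fun i => (r n i : ℝ)) j - wt (t n • κ) j| :=
            mul_le_mul_of_nonneg_right h1 (abs_nonneg _)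
        _ = C j * (τ n * |wt (fun i => (r n i : ℝ)) j - wt (t n • κ) j|) := by ring
        _ ≤ C j * 1 := mul_le_mul_of_nonneg_left (hr2 n j).le (hC0 j)
        _ = C j := mul_one _
    have e2 : c * ((n : ℝ) + 1) - A ≤ |G M F b (x + y n) (t n • κ)| := by
      rw [sum_co hm hF b κ (N + 1) hN, Finset.sum_range_succ]
      have h3 : |∑ k ∈ Finset.range (N + 1), co M (m + 1) F b κ k (x + y n) * t n ^ k| ≤
          A * τ n * t n ^ N := by
        refine (Finset.abs_sum_le_sum_abs _ _).trans ?_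
        rw [hA, Finset.sum_mul, Finset.sum_mul]
        refine Finset.sum_le_sum fun k hk => ?_
        rw [abs_mul, abs_pow, abs_of_nonneg (zero_le_one.trans htn)]
        have h4 : k ≤ N := by have := Finset.mem_range.mp hk; omega
        exact mul_le_mul (hD k n) (pow_le_pow_right₀ htn h4) (by positivity)
          (mul_nonneg (hD0 k) (by linarith))
      have h5 : (c * (((n : ℝ) + 1) * τ n)) * t n ^ N ≤
          |co M (m + 1) F b κ (N + 1) (x + y n) * t n ^ (N + 1)| := by
        rw [abs_mul, abs_pow, abs_of_nonneg (zero_le_one.trans htn)]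
        calc (c * (((n : ℝ) + 1) * τ n)) * t n ^ N ≤ (c * (t n * ρ n)) * t n ^ N :=
              mul_le_mul_of_nonneg_right (mul_le_mul_of_nonneg_left (htρ n) hc0.le)
                (by positivity)
          _ = (c * ρ n) * t n ^ (N + 1) := by ring
          _ ≤ _ := mul_le_mul_of_nonneg_right hn (by positivity)
      have h6 : |co M (m + 1) F b κ (N + 1) (x + y n) * t n ^ (N + 1)| -
          |∑ k ∈ Finset.range (N + 1), co M (m + 1) F b κ k (x + y n) * t n ^ k| ≤
          |∑ k ∈ Finset.range (N + 1), co M (m + 1) F b κ k (x + y n) * t n ^ k +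
            co M (m + 1) F b κ (N + 1) (x + y n) * t n ^ (N + 1)| := by
        have := abs_sub_abs_le_abs_sub (co M (m + 1) F b κ (N + 1) (x + y n) * t n ^ (N + 1))
          (-∑ k ∈ Finset.range (N + 1), co M (m + 1) F b κ k (x + y n) * t n ^ k)
        rw [abs_neg, sub_neg_eq_add, add_comm (co M (m + 1) F b κ (N + 1) (x + y n) *
          t n ^ (N + 1))] at this
        exact this
      have h7 : 0 ≤ c * ((n : ℝ) + 1) - A := by
        have : 0 ≤ B := Finset.sum_nonneg fun j _ => hC0 j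
        nlinarith
      have h8 : 1 ≤ τ n * t n ^ N := by
        have := one_le_pow₀ htn (n := N)
        nlinarith
      calc c * ((n : ℝ) + 1) - A ≤ (c * ((n : ℝ) + 1) - A) * (τ n * t n ^ N) :=
            le_mul_of_one_le_right h7 h8
        _ = (c * (((n : ℝ) + 1) * τ n)) * t n ^ N - A * τ n * t n ^ N := by ring
        _ ≤ _ := by linarith
    have e3 : |G M F b (x + y n) (t n • κ)| ≤
        |F (x + (y n + ∑ i, (r n i : ℝ) • b i))| +
        |F (x + (y n + ∑ i, (r n i : ℝ) • b i)) - G M F b (x + y n) (t n • κ)| := by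
      have := abs_sub_abs_le_abs_sub (G M F b (x + y n) (t n • κ))
        (F (x + (y n + ∑ i, (r n i : ℝ) • b i)))
      rw [abs_sub_comm] at this
      linarith
    nlinarith

variable [FiniteDimensional ℝ E]

lemma main_induction (M : ℕ) : ∀ (m : ℕ), m ≤ M → ∀ (F : E → ℝ), IsFunctionalOfDegree m F →
    (∃ x, F x ≠ 0) →
    ∃ (y : ℕ → E) (τ ρ : ℕ → ℝ), Tendsto y atTop (𝓝 0) ∧ (∀ n, 1 ≤ τ n) ∧ (∀ n, 0 < ρ n) ∧
      Tame M y τ ∧ (∀ x, ∃ c : ℝ, 0 < c ∧ ∀ᶠ n in atTop, c * ρ n ≤ |F (x + y n)|) ∧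
      (¬ Continuous F → ∀ n : ℕ, ρ n = (n : ℝ) + 1) := by
  intro m
  induction m with
  | zero =>
    intro hm F hF hne
    have hc : Continuous F := by
      have : F = fun _ => F 0 := by
        funext x
        have h1 := P_eval_nat hF 0 x 1
        have h2 := P_eval_nat hF 0 x 0
        have h3 : (P hF 0 x).natDegree = 0 := Nat.le_zero.mp (P_deg hF 0 x)
        rw [natDegree_eq_zero] at h3
        obtain ⟨c, hc⟩ := h3
        rw [← hc] at h1 h2
        simp only [eval_C] at h1 h2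
        simp at h1 h2
        rw [h1, h2]
      rw [this]
      exact continuous_const
    obtain ⟨y, τ, ρ, h1, h2, h3, h4, h5⟩ := base_case (deg_mono hm hF) hc hne
    exact ⟨y, τ, ρ, h1, h2, h3, h4, h5, fun h => absurd hc h⟩
  | succ m ih =>
    intro hm F hF hne
    by_cases hc : Continuous F
    · obtain ⟨y, τ, ρ, h1, h2, h3, h4, h5⟩ := base_case (deg_mono hm hF) hc hne
      exact ⟨y, τ, ρ, h1, h2, h3, h4, h5, fun h => absurd hc h⟩
    · obtain ⟨d, b, κ, hκ, k, hk1, x0, hx0⟩ := exists_direction hm hF hc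
      have hkm : k ≤ m + 1 := by
        by_contra h
        exact hx0 (co_eq_zero F b κ (by omega) x0)
      classical
      set N := Nat.findGreatest (fun k => ∃ x, co M (m + 1) F b κ k x ≠ 0) (m + 1) with hN
      have hNk : k ≤ N := Nat.le_findGreatest hkm ⟨x0, hx0⟩
      have hNs : ∃ x, co M (m + 1) F b κ N x ≠ 0 :=
        Nat.findGreatest_spec (P := fun k => ∃ x, co M (m + 1) F b κ k x ≠ 0) hkm ⟨x0, hx0⟩
      have hNg : ∀ k, N < k → ∀ x, co M (m + 1) F b κ k x = 0 := by
        intro j hj x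
        rcases Nat.lt_or_ge (m + 1) j with h | h
        · exact co_eq_zero F b κ h x
        · have := Nat.findGreatest_is_greatest hj h
          push Not at this
          exact this x
      obtain ⟨N', hN'⟩ : ∃ N', N = N' + 1 := ⟨N - 1, by omega⟩
      have hdeg := co_drop hm hF b κ N (by omega) hNg
      obtain ⟨y, τ, ρ, h1, h2, h3, h4, h5, -⟩ := ih (by omega) _ hdeg hNs
      rw [hN'] at hNg h5
      obtain ⟨y', τ', g1, g2, g3, g4⟩ := step hm hF b κ hκ N' hNg y τ ρ h1 h2 h3 h4 h5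
      refine ⟨y', τ', fun n => (n : ℝ) + 1, g1, g2, fun n => by positivity, g3, g4,
        fun _ n => rfl⟩

/-- **Q1 in finite dimension**, with any prescribed speed. -/
theorem finite_dim {m : ℕ} {F : E → ℝ} (hF : IsFunctionalOfDegree m F) (hd : ¬ Continuous F)
    (φ : ℕ → ℝ) :
    ∃ x : ℕ → E, Tendsto x atTop (𝓝 0) ∧ ∀ y : E, ∀ᶠ n in atTop, φ n ≤ |F (x n + y)| := by
  have hne : ∃ x, F x ≠ 0 := by
    by_contra h
    push Not at h
    apply hd
    have : F = fun _ => 0 := funext h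
    rw [this]
    exact continuous_const
  obtain ⟨y, τ, ρ, h1, -, -, -, h5, h6⟩ := main_induction m m le_rfl F hF hne
  have h6' := h6 hd
  -- pass to a subsequence
  let k : ℕ → ℕ := fun n => n * (⌈|φ n|⌉₊ + 1)
  have hk : Tendsto k atTop atTop := by
    refine tendsto_atTop_mono (fun n => ?_) tendsto_id
    simp only [k, id]
    nlinarith [Nat.zero_le n, Nat.zero_le ⌈|φ n|⌉₊]
  refine ⟨fun n => y (k n), h1.comp hk, fun x => ?_⟩
  obtain ⟨c, hc0, hc⟩ := h5 x
  have h7 : ∀ᶠ n : ℕ in atTop, 1 / c ≤ (n : ℝ) := by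
    filter_upwards [eventually_ge_atTop (⌈1 / c⌉₊)] with n hn
    exact (Nat.le_ceil _).trans (by exact_mod_cast hn)
  filter_upwards [hk.eventually hc, h7] with n hn h8
  rw [h6'] at hn
  rw [add_comm]
  refine le_trans ?_ hn
  rw [div_le_iff₀ hc0] at h8
  have h9 : ((k n : ℕ) : ℝ) = (n : ℝ) * ((⌈|φ n|⌉₊ : ℝ) + 1) := by
    simp [k]
  rw [h9]
  have h10 := Nat.le_ceil |φ n|
  have h11 := le_abs_self (φ n)
  have h12 : (0 : ℝ) ≤ ((⌈|φ n|⌉₊ : ℕ) : ℝ) := Nat.cast_nonneg _
  nlinarith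

end Pool.Agent.Y786.FQ
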